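import Pool.Agent.V11290.FD.Dil

/-!
# Correlations of the Moebius function with one shift near `t α + s`, for almost every `α` of a set of positive Fourier dimension

Let `μ` be ANY probability measure on `[-B, B]` whose Fourier transform decays like some power, with an arbitrarily
small exponent `σ > 0`. (Such measures live on many sets of Lebesgue measure zero and of arbitrarily small dimension,
for example on the sets of `τ`-well approximable numbers (Kaufman), on random Salem sets and on limit sets of convex cocompact
Fuchsian groups (Bourgain, Dyatlov).) Let `t j ≥ 2` be numbers for which some `∑ 1 / log ^ V (t j)` converges (for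
instance `t j = 2 ^ j`, or any sequence with at most `log ^ O(1) X` members up to `X`), `|s j| ≤ B t j` arbitrary, and
for every `j` let at most `log ^ T (t j)` functions `g` with `|g| ≤ 1` be given (for example all the products
`∏ i, μ (n + α i) ^ ε i`, where the `α i` are near `t j α i' + s i j` for other given numbers `α i'`). Then for almost
every `α`, for all but finitely many `j`, ALL the integers `h` at a distance of at most `log ^ A (t j)` from
`t j α + s j` satisfy `|∑ n ≤ N, g n * μ (n + h)| ≤ t j / log ^ U (t j)` for all `N ≤ B t j` and all the `g`.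

Proof: the law of a random rounding of `t α` has a small characteristic function away from the integers (a Fourier
series with the coefficients `sinc²`), the theorem of the library W93.AU on random shifts with a small characteristic
function (starting files) is applied to it, and then the lemma of Borel and Cantelli.
-/

set_option autoImplicit false

namespace Pool.Agent.Results.MP_c59857_nt.FourierDecay

open MeasureTheory Finset

/-- The Moebius function `μ (m)`, `m ≥ 1`, with complex values; `0` for `m ≤ 0`. -/
noncomputable def mu (m : ℤ) : ℂ := ((ArithmeticFunction.moebius m.toNat : ℤ) : ℂ)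

/-- Let `ν` be a probability measure on `[-B, B]` with `|ν^(ξ)| ≤ C |ξ| ^ (-σ)` for `|ξ| ≥ 1` and some `C` and `σ > 0`.
Let `t j ≥ 2` and `|s j| ≤ B t j` be real numbers, where `j` ranges over a set `J`, such that the sum of the
`1 / log ^ V (t j)` converges for some `V`, and for every `j` let `g j l : ℕ → ℂ`, where `l` ranges over at most
`log ^ T (t j)` indices, be arbitrary functions bounded by `1` (for example products `∏ i, μ (n + α i) ^ ε i` with
arbitrary shifts `α i` and exponents `ε i ∈ {1, 2}`). Then for `ν`-almost every `α`, for all `A` and `U` and for all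
but finitely many `j`, ALL the integers `h` with `|h - (t j α + s j)| ≤ log ^ A (t j)` satisfy
`|∑ n ≤ N, g j l n * μ (n + h)| ≤ t j / log ^ U (t j)` for all `l` and all `N ≤ B t j`. -/
theorem result (ν : Measure ℝ) [IsProbabilityMeasure ν] (B : ℝ) (hB : 0 < B) (hν : ∀ᵐ α ∂ν, |α| ≤ B)
    (C σ : ℝ) (hσ : 0 < σ) (hdec : ∀ ξ : ℝ, 1 ≤ |ξ| → ‖charFun ν ξ‖ ≤ C * |ξ| ^ (-σ))
    (J : Type) (t s : J → ℝ) (ht : ∀ j, 2 ≤ t j) (hs : ∀ j, |s j| ≤ B * t j)
    (hsum : ∃ V : ℕ, Summable fun j => 1 / Real.log (t j) ^ V)
    (T : ℕ) (L : J → ℕ) (hL : ∀ j, (L j : ℝ) ≤ Real.log (t j) ^ T)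
    (g : (j : J) → Fin (L j) → ℕ → ℂ) (hg : ∀ j l n, ‖g j l n‖ ≤ 1) :
    ∀ᵐ α ∂ν, ∀ A U : ℕ,
      {j | ¬ ∀ h : ℤ, |(h : ℝ) - (t j * α + s j)| ≤ Real.log (t j) ^ A → ∀ l, ∀ N : ℕ, (N : ℝ) ≤ B * t j →
        ‖∑ n ∈ Icc 1 N, g j l n * mu (n + h)‖ ≤ t j / Real.log (t j) ^ U}.Finite := by
  obtain ⟨V, hV⟩ := hsum
  have h := Pool.Agent.V11290.FD.dil_ae Pool.Agent.H373R2.T7.muC Pool.Agent.W93.LM.nice_muC B C σ hB hσ ν hdec hν t s ht V hV hs
    T L (Real.exp 1) (fun j _ => hL j) (fun _ _ => 1) (fun _ _ => le_rfl) g (by
    intro j hj l n _ _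
    refine (hg j l n).trans (one_le_pow₀ ?_)
    rwa [Real.le_log_iff_exp_le (by linarith [ht j])])
  filter_upwards [h] with α hα A U
  refine (hα A U).subset ?_
  intro j hj hall
  apply hj
  intro m hm l N hN
  have h1 := hall m hm l N (by rw [Nat.cast_one, one_mul]; exact hN)
  refine le_trans (le_of_eq ?_) h1
  congr 1
  apply sum_congr rfl
  intro n _
  congr 1
  rw [Nat.cast_one, one_mul]
  unfold Pool.Agent.H373R2.T7.exI mu
  split_ifs with h3
  · rfl
  · rw [Int.toNat_of_nonpos (by omega)]
    simp

end Pool.Agent.Results.MP_c59857_nt.FourierDecay
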