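import Pool.Agent.V1213.CH.Mob

/-!
# Autocorrelations of the Moebius function: minor arc phases and the joint distribution of value patterns and `t n`

For `α : Fin r → ℕ` and exponents `c : Fin r → ℕ` let `MP α c n = μ(n + α_1)^(c_1) ⋯ μ(n + α_r)^(c_r)`.  (Shifts `≥ 0`
suffice, since a translation of all shifts changes the sums by `O(1)` and a phase factor.)  We prove, for every `r`
and all shifts, unconditionally:

1. for all scales `N ≤ X` outside a set of small logarithmic measure, all real `t` at a distance of at least `R / N`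
   from the fractions with denominator at most `R` and all `y ≤ N`: the sum of `MP α c n e(t n)` over `n ≤ y` is at
   most `ε N` for all exponents `c_i ∈ {0, 1, 2}`; and for every pattern `s` of values in `{-1, 0, 1}` the `n ≤ y`
   with `μ(n + α_i) = s_i` for all `i` and with `{t n}` in a given interval `[u, v)` are `v - u` times as many as the
   `n ≤ y` with the pattern, up to `ε N`;
2. for a fixed irrational `t` this is true at all scales `N` outside a set of logarithmic density zero;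
3. for all shifts and exponents: the sums of `MP α c` over the `n ≤ N` in the arithmetic progressions are small for
   `N` outside sets of logarithmic density zero if and only if `sup_t sup_{y ≤ N}` of the sums of `MP α c n e(t n)`
   over `n ≤ y` (all real `t`) is small for `N` outside sets of logarithmic density zero.
-/

set_option autoImplicit false

namespace Pool.Agent.Results.MP_c59857_nt.MinorArcsValuePatterns

open Finset Filter Topology

/-- The Moebius function. -/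
def mu (n : ℕ) : ℤ := ArithmeticFunction.moebius n

/-- `μ(n + α_1)^(c_1) ⋯ μ(n + α_r)^(c_r)` -/
def MP {r : ℕ} (α c : Fin r → ℕ) (n : ℕ) : ℤ := ∏ i, mu (n + α i) ^ c i

/-- `e(x) = exp(2 π i x)` -/
noncomputable def e (x : ℝ) : ℂ := Complex.exp (2 * Real.pi * x * Complex.I)

/-- `∑_{1 ≤ n ≤ y} μ(n + α_1)^(c_1) ⋯ μ(n + α_r)^(c_r) e(t n)`; for `t = 0` this is `y S_y(α, c)`. -/
noncomputable def S {r : ℕ} (α c : Fin r → ℕ) (y : ℕ) (t : ℝ) : ℂ := ∑ n ∈ Icc 1 y, (MP α c n : ℂ) * e (t * n)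

/-- `μ(n + α_i) = s_i` for all `i` -/
def Pattern {r : ℕ} (α : Fin r → ℕ) (s : Fin r → ℤ) (n : ℕ) : Prop := ∀ i, mu (n + α i) = s i

open Classical in
/-- The number of the `n`, `1 ≤ n ≤ y`, with the pattern `s`. -/
noncomputable def patternCount {r : ℕ} (α : Fin r → ℕ) (s : Fin r → ℤ) (y : ℕ) : ℕ :=
  ((Icc 1 y).filter fun n => Pattern α s n).card

open Classical in
/-- The number of the `n`, `1 ≤ n ≤ y`, with the pattern `s` and with the fractional part of `t n` in `[u, v)`. -/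
noncomputable def patternBohrCount {r : ℕ} (α : Fin r → ℕ) (s : Fin r → ℤ) (y : ℕ) (t u v : ℝ) : ℕ :=
  ((Icc 1 y).filter fun n : ℕ => Pattern α s n ∧ u ≤ Int.fract (t * n) ∧ Int.fract (t * n) < v).card

open Classical in
/-- `E` has logarithmic density zero. -/
def LogNull (E : Set ℕ) : Prop :=
  Tendsto (fun X : ℕ => (∑ n ∈ Icc 1 X, if n ∈ E then (1 : ℝ) / n else 0) / Real.log X) atTop (𝓝 0)

/-- `t` is on the minor arcs of level `R` at the scale `N`: `|t - A / q| ≥ R / N` for all fractions `A / q` with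
`1 ≤ q ≤ R`. -/
def Minor (R N : ℕ) (t : ℝ) : Prop :=
  ∀ q : ℕ, 1 ≤ q → q ≤ R → ∀ A : ℤ, (R : ℝ) ≤ |t - A / q| * N

/-- The sums with the phase `t` are at most `ε N` for all exponents `0, 1, 2`, and all patterns of values are
equidistributed with respect to `t n` modulo `1`, up to `ε N`. -/
def Good {r : ℕ} (α : Fin r → ℕ) (ε : ℝ) (N y : ℕ) (t : ℝ) : Prop :=
  (∀ c : Fin r → ℕ, (∀ i, c i ≤ 2) → ‖S α c y t‖ ≤ ε * N) ∧
  ∀ (s : Fin r → ℤ) (u v : ℝ), 0 ≤ u → u ≤ v → v ≤ 1 →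
    |(patternBohrCount α s y t u v : ℝ) - (v - u) * patternCount α s y| ≤ ε * N

theorem result (r : ℕ) (hr : 1 ≤ r) (α : Fin r → ℕ) :
    (∀ ε : ℝ, 0 < ε → ∃ R X₀ : ℕ, ∀ X : ℕ, X₀ ≤ X → ∃ T ⊆ Icc 1 X,
      ∑ N ∈ T, (1 : ℝ) / N ≤ ε * Real.log X ∧
      ∀ N ∈ Icc 1 X, N ∉ T → ∀ t : ℝ, Minor R N t → ∀ y ≤ N, Good α ε N y t) ∧
    (∀ t : ℝ, Irrational t → ∀ ε : ℝ, 0 < ε → LogNull {N : ℕ | ¬ ∀ y ≤ N, Good α ε N y t}) ∧
    (∀ c : Fin r → ℕ,
      (∀ q a : ℕ, 1 ≤ q → ∀ ε : ℝ, 0 < ε →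
        LogNull {N : ℕ | ε * N < |∑ n ∈ (Icc 1 N).filter (fun n => n % q = a), (MP α c n : ℝ)|}) ↔
      ∀ ε : ℝ, 0 < ε → LogNull {N : ℕ | ∃ t : ℝ, ∃ y ≤ N, ε * N < ‖S α c y t‖}) := by
  have h1 : ∀ ε : ℝ, 0 < ε → ∃ R X₀ : ℕ, ∀ X : ℕ, X₀ ≤ X → ∃ T ⊆ Icc 1 X,
      ∑ N ∈ T, (1 : ℝ) / N ≤ ε * Real.log X ∧
      ∀ N ∈ Icc 1 X, N ∉ T → ∀ t : ℝ, Minor R N t → ∀ y ≤ N, Good α ε N y t :=
    fun ε hε => Pool.Agent.V1213.CH.mob_unif hr α ε hε
  refine ⟨h1, fun t ht ε hε => ?_, fun c => Pool.Agent.V1213.CH.mob_equiv hr α c⟩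
  refine Pool.Agent.V1213.CH.LZ_of_unif (fun ε N t => ∀ y ≤ N, Good α ε N y t) ?_ h1 t ht ε hε
  intro ε ε' N t hεε h y hy
  obtain ⟨h2, h3⟩ := h y hy
  have h4 : ε * N ≤ ε' * N := mul_le_mul_of_nonneg_right hεε (Nat.cast_nonneg N)
  exact ⟨fun c hc => (h2 c hc).trans h4, fun s u v hu huv hv => (h3 s u v hu huv hv).trans h4⟩

end Pool.Agent.Results.MP_c59857_nt.MinorArcsValuePatterns
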