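import Pool.Agent.V11251.DS.Corr

/-!
# Autocorrelations of the Möbius function with a palindromic shift

The analytic input (exponential sum bounds for the Möbius function, the law of the palindromes) is in the
starting files `Pool.Agent.H807R2.Dav`, `Pool.Agent.H373R2.T7`, `Pool.Agent.W93.AU`, `Pool.Agent.TH872`.
-/

set_option autoImplicit false

namespace Pool.Agent.Results.MP_c59857_nt.PalindromicShifts

open Finset

/-- The Möbius function on the integers, `0` at the integers `m ≤ 0`, with complex values. -/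
noncomputable def mu (m : ℤ) : ℂ := ((ArithmeticFunction.moebius m.toNat : ℤ) : ℂ)

/-- `v` is a palindrome with exactly `k` digits in base `b`: the digit number `j` (which is
`v / b ^ j % b`) is equal to the digit number `k - 1 - j`, for all `j < k`. -/
def IsPalindrome (b k v : ℕ) : Prop :=
  b ^ (k - 1) ≤ v ∧ v < b ^ k ∧ ∀ j < k, v / b ^ j % b = v / b ^ (k - 1 - j) % b

open Classical in
/-- The number of the palindromes with `k` digits in base `b` which have the property `E`. -/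
noncomputable def num (b k : ℕ) (E : ℕ → Prop) : ℕ :=
  ((range (b ^ k)).filter (fun v => IsPalindrome b k v ∧ E v)).card

/-- Let the base `b ≥ 2`, an integer `κ ≠ 0` and `B`, `T`, `U` be fixed. Let `k` be large and let `c` be an integer with
`|c| ≤ B b ^ k`. Let `α l ≥ 1` and let `g l : ℕ → ℂ`, where `l` ranges over at most `k ^ T` indices, be arbitrary functions
bounded by `1` (for example products `∏ i, μ (n + α i) ^ ε i` with arbitrary shifts `α i` and exponents `ε i ∈ {1, 2}`).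
Then all the palindromes `v` with `k` digits in base `b`, with the exception of a proportion of at most `1 / k ^ U` of
them, have the following property: the shift `h = c + κ v` satisfies
`|∑ n ≤ x, g l n * μ (α l * n + h)| ≤ b ^ k / k ^ U` for all `l` and all `x ≤ B b ^ k / α l`. -/
theorem result (b : ℕ) (hb : 2 ≤ b) (κ : ℤ) (hκ : κ ≠ 0) (B T U : ℕ) :
    ∃ k₀ : ℕ, ∀ k, k₀ ≤ k → ∀ c : ℤ, |c| ≤ B * b ^ k →
      ∀ L : ℕ, (L : ℝ) ≤ (k : ℝ) ^ T → ∀ (α : Fin L → ℕ) (g : Fin L → ℕ → ℂ), (∀ l, 1 ≤ α l) → (∀ l n, ‖g l n‖ ≤ 1) →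
        (num b k (fun v => ¬ ∀ l, ∀ x : ℕ, α l * x ≤ B * b ^ k →
          ‖∑ n ∈ Icc 1 x, g l n * mu (α l * n + (c + κ * v))‖ ≤ (b : ℝ) ^ k / (k : ℝ) ^ U) : ℝ) ≤
          num b k (fun _ => True) / (k : ℝ) ^ U := by
  obtain ⟨k1, h1⟩ := Pool.Agent.TH872.Tr.transfer b B U hb κ _
    (Pool.Agent.V11251.DS.pal_corr b B T U hb Pool.Agent.H373R2.T7.muC Pool.Agent.W93.LM.nice_muC κ hκ)
    1 one_pos
  refine ⟨k1 + 1, fun k hk c hc L hL α g hα hg => ?_⟩
  have hk1 : (1 : ℝ) ≤ k := by exact_mod_cast (by omega : 1 ≤ k)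
  refine (h1 k (by omega) c (by exact_mod_cast hc) (fun s => ¬ ∀ l, ∀ x : ℕ, α l * x ≤ B * b ^ k →
          ‖∑ n ∈ Icc 1 x, g l n * mu (α l * n + s)‖ ≤ (b : ℝ) ^ k / (k : ℝ) ^ U) ?_).2
  refine ⟨L, (fun l m => if hl : l < L then (if α ⟨l, hl⟩ ∣ m then g ⟨l, hl⟩ (m / α ⟨l, hl⟩) else 0) else 0), hL, (by
      intro l hl m _ _
      simp only [hl, dif_pos]
      split_ifs
      · exact (hg _ _).trans (one_le_pow₀ hk1)
      · rw [norm_zero]; positivity), fun s hs => ?_⟩
  push Not at hs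
  obtain ⟨l, x, hx, h3⟩ := hs
  refine ⟨l, l.2, α l * x, hx, ?_⟩
  simp only [l.2, dif_pos]
  have e1 := Pool.Agent.W93.LM.spread (fun m => Pool.Agent.H373R2.T7.exI Pool.Agent.H373R2.T7.muC ((m : ℤ) + (s)))
    (fun n => g l n) (α l) x (hα l)
  rw [← e1]
  rw [Nat.cast_pow]
  refine lt_of_lt_of_eq h3 ?_
  congr 1
  apply sum_congr rfl
  intro n _
  congr 1
  have e2 : (α l : ℤ) * (n : ℤ) + (s) = ((α l * n : ℕ) : ℤ) + (s) := by push_cast; ring
  rw [e2]
  unfold Pool.Agent.H373R2.T7.exI mu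
  split_ifs with h4
  · rfl
  · rw [Int.toNat_of_nonpos (by omega)]
    simp

end Pool.Agent.Results.MP_c59857_nt.PalindromicShifts
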