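import Pool.Agent.V11251.DS.Corr

/-!
# Autocorrelations of the Möbius function with a shift with rearranged digits

The analytic input (exponential sum bounds for the Möbius function, the law of the rearranged digits) is in the
starting files `Pool.Agent.H807R2.Dav`, `Pool.Agent.H373R2.T7`, `Pool.Agent.W93.AU`, `Pool.Agent.TH872`.
-/

set_option autoImplicit false

namespace Pool.Agent.Results.MP_c59857_nt.RearrangedShifts

open Finset

/-- The Möbius function on the integers, `0` at the integers `m ≤ 0`, with complex values. -/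
noncomputable def mu (m : ℤ) : ℂ := ((ArithmeticFunction.moebius m.toNat : ℤ) : ℂ)

/-- `d` is a word of `k` digits in base `b`, in which no digit stands at more than `(1 - η) k` places. -/
def Mixed (b k : ℕ) (η : ℝ) (d : Fin k → ℕ) : Prop :=
  (∀ i, d i < b) ∧ ∀ a, ((univ.filter fun i => d i = a).card : ℝ) ≤ (1 - η) * k

/-- The integer whose `k` digits in base `b` are the digits `d` rearranged by the permutation `σ`: the digit number `i`
(the coefficient of `b ^ i`) is `d (σ i)`. -/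
def rearranged (b : ℕ) {k : ℕ} (d : Fin k → ℕ) (σ : Equiv.Perm (Fin k)) : ℕ := ∑ i : Fin k, d (σ i) * b ^ (i : ℕ)

open Classical in
/-- Let the base `b ≥ 2`, `η > 0`, an integer `κ ≠ 0` and `B`, `T`, `U` be fixed. Let `k` be large and let `d` be ANY `k`
digits in base `b`, none of which stands at more than `(1 - η) k` places. Let `c` be an integer with `|c| ≤ B b ^ k`. Let
`α l ≥ 1` and let `g l : ℕ → ℂ`, where `l` ranges over at most `k ^ T` indices, be arbitrary functions bounded by `1` (for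
example products `∏ i, μ (n + α i) ^ ε i` with arbitrary shifts `α i` and exponents `ε i ∈ {1, 2}`). Then all but at most
`k ! / k ^ U` of the `k !` permutations `σ` of the places have the following property: the shift `h = c + κ v`, where `v`
is the integer with the rearranged digits, satisfies `|∑ n ≤ x, g l n * μ (α l * n + h)| ≤ b ^ k / k ^ U` for all `l` and
all `x ≤ B b ^ k / α l`. -/
theorem result (b : ℕ) (hb : 2 ≤ b) (η : ℝ) (hη : 0 < η) (κ : ℤ) (hκ : κ ≠ 0) (B T U : ℕ) :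
    ∃ k₀ : ℕ, ∀ k, k₀ ≤ k → ∀ d : Fin k → ℕ, Mixed b k η d → ∀ c : ℤ, |c| ≤ B * b ^ k →
      ∀ L : ℕ, (L : ℝ) ≤ (k : ℝ) ^ T → ∀ (α : Fin L → ℕ) (g : Fin L → ℕ → ℂ), (∀ l, 1 ≤ α l) → (∀ l n, ‖g l n‖ ≤ 1) →
        ((univ.filter fun σ : Equiv.Perm (Fin k) => ¬ ∀ l, ∀ x : ℕ, α l * x ≤ B * b ^ k →
          ‖∑ n ∈ Icc 1 x, g l n * mu (α l * n + (c + κ * rearranged b d σ))‖ ≤ (b : ℝ) ^ k / (k : ℝ) ^ U).card : ℝ) ≤
          k.factorial / (k : ℝ) ^ U := by
  obtain ⟨k1, h1⟩ := Pool.Agent.V11251.DS.an_corr b B T U hb Pool.Agent.H373R2.T7.muC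
    Pool.Agent.W93.LM.nice_muC κ hκ η hη
  refine ⟨k1 + 1, fun k hk d hd c hc L hL α g hα hg => ?_⟩
  have hk1 : (1 : ℝ) ≤ k := by exact_mod_cast (by omega : 1 ≤ k)
  refine h1 k (by omega) d ⟨hd.1, hd.2⟩ c (by exact_mod_cast hc) L hL
    (fun l m => if hl : l < L then (if α ⟨l, hl⟩ ∣ m then g ⟨l, hl⟩ (m / α ⟨l, hl⟩) else 0) else 0) (by
      intro l hl m _ _
      simp only [hl, dif_pos]
      split_ifs
      · exact (hg _ _).trans (one_le_pow₀ hk1)
      · rw [norm_zero]; positivity)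
    _ (fun σ hσ => ?_)
  push Not at hσ
  obtain ⟨l, x, hx, h3⟩ := hσ
  refine ⟨l, l.2, α l * x, hx, ?_⟩
  have hV : rearranged b d σ = Pool.Agent.TH872.An.V b d σ := rfl
  rw [hV] at h3
  simp only [l.2, dif_pos]
  have e1 := Pool.Agent.W93.LM.spread (fun m => Pool.Agent.H373R2.T7.exI Pool.Agent.H373R2.T7.muC ((m : ℤ) + (c + κ * (Pool.Agent.TH872.An.V b d σ : ℕ))))
    (fun n => g l n) (α l) x (hα l)
  rw [← e1]
  rw [Nat.cast_pow]
  refine lt_of_lt_of_eq h3 ?_
  congr 1
  apply sum_congr rfl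
  intro n _
  congr 1
  have e2 : (α l : ℤ) * (n : ℤ) + (c + κ * (Pool.Agent.TH872.An.V b d σ : ℕ)) = ((α l * n : ℕ) : ℤ) + (c + κ * (Pool.Agent.TH872.An.V b d σ : ℕ)) := by push_cast; ring
  rw [e2]
  unfold Pool.Agent.H373R2.T7.exI mu
  split_ifs with h4
  · rfl
  · rw [Int.toNat_of_nonpos (by omega)]
    simp

end Pool.Agent.Results.MP_c59857_nt.RearrangedShifts
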